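import Mathlib

/-!
# Equal disks in the unit disk with no line meeting many: a lower bound for `r_k(n)`

We show `r_k(n) ≥ n ^ (- k / (k - 1)) / 736` for all `k ≥ 2` and `n ≥ 1`.  For `k ≥ 3` this improves
the order `log n / n ^ 2`.

The proof is the alteration method: we choose `2 n` points of a fine `m × m` grid in a square at
random.  If `k + 1` points are at distance at most `r` of a line and `i, j` are two of them for which
the larger one of the coordinate differences is maximal, then all the others lie in a strip of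
width `22 r` around the line through the points `i` and `j`, which contains at most
`m (22 r m + 1)` points of the grid.  Hence the expected number of indices `i` which are the first
index of such a pair, or whose point occurs twice, is at most `n`, and we remove them.
-/

set_option autoImplicit false

namespace Pool.Agent.Results.MP_1780a9_co.LowerBound



/-- deviation lemma -/
theorem dev_le {a b c r xu yu xv yv xg yg D : ℝ} (hab : a ^ 2 + b ^ 2 = 1)
    (hu : |a * xu + b * yu - c| ≤ r) (hv : |a * xv + b * yv - c| ≤ r)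
    (hg : |a * xg + b * yg - c| ≤ r) (hD : |xv - xu| = D) (h1 : |yv - yu| ≤ D)
    (h2 : |xg - xu| ≤ D) (h3 : |yg - yu| ≤ D) :
    |yg - yu - (xg - xu) / (xv - xu) * (yv - yu)| ≤ 11 * r := by
  have hr : 0 ≤ r := (abs_nonneg _).trans hu
  rcases eq_or_ne (xv - xu) 0 with h0 | h0
  · rw [h0, abs_zero] at hD
    rw [← hD] at h1 h2 h3
    have e1 := abs_nonpos_iff.mp h1
    have e3 := abs_nonpos_iff.mp h3
    rw [e1, e3]
    simp only [mul_zero, sub_zero, abs_zero]
    linarith
  · obtain ⟨lam, hlam⟩ : ∃ lam, lam = (xg - xu) / (xv - xu) := ⟨_, rfl⟩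
    rw [← hlam]
    have hl1 : lam * (xv - xu) = xg - xu := by
      rw [hlam]
      field_simp
    have hD0 : 0 < D := by
      rw [← hD]
      exact abs_pos.mpr h0
    have hlabs : |lam| ≤ 1 := by
      rw [hlam, abs_div, div_le_one (abs_pos.mpr h0), hD]
      exact h2
    have hw1 : |a * (xg - xu) + b * (yg - yu)| ≤ 2 * r := by
      have e : a * (xg - xu) + b * (yg - yu) = (a * xg + b * yg - c) - (a * xu + b * yu - c) := by
        ring
      rw [e]
      exact (abs_sub _ _).trans (by linarith)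
    have hw2 : |a * (xv - xu) + b * (yv - yu)| ≤ 2 * r := by
      have e : a * (xv - xu) + b * (yv - yu) = (a * xv + b * yv - c) - (a * xu + b * yu - c) := by
        ring
      rw [e]
      exact (abs_sub _ _).trans (by linarith)
    rcases le_or_gt (1 / 2) |b| with hb | hb
    · have e : b * (yg - yu - lam * (yv - yu)) =
          (a * (xg - xu) + b * (yg - yu)) - lam * (a * (xv - xu) + b * (yv - yu)) := by
        linear_combination a * hl1
      have h4 : |b| * |yg - yu - lam * (yv - yu)| ≤ 4 * r := by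
        rw [← abs_mul, e]
        refine (abs_sub _ _).trans ?_
        rw [abs_mul]
        have h5 : |lam| * |a * (xv - xu) + b * (yv - yu)| ≤ 1 * (2 * r) :=
          mul_le_mul hlabs hw2 (abs_nonneg _) zero_le_one
        linarith
      have h6 : 1 / 2 * |yg - yu - lam * (yv - yu)| ≤ |b| * |yg - yu - lam * (yv - yu)| :=
        mul_le_mul_of_nonneg_right hb (abs_nonneg _)
      linarith
    · have hb2 : b ^ 2 < 1 / 4 := by
        have := sq_abs b
        nlinarith [abs_nonneg b]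
      have ha : 866 / 1000 ≤ |a| := by
        by_contra hn
        push Not at hn
        have := sq_abs a
        nlinarith [abs_nonneg a]
      have h4 : |a| * D ≤ 2 * r + 1 / 2 * D := by
        have e : a * (xv - xu) = (a * (xv - xu) + b * (yv - yu)) - b * (yv - yu) := by ring
        have h5 : |a * (xv - xu)| ≤ 2 * r + |b| * |yv - yu| := by
          rw [e]
          refine (abs_sub _ _).trans ?_
          rw [abs_mul b]
          linarith
        rw [abs_mul, hD] at h5
        have h6 : |b| * |yv - yu| ≤ 1 / 2 * D :=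
          mul_le_mul hb.le h1 (abs_nonneg _) (by norm_num)
        linarith
      have h7 : 866 / 1000 * D ≤ |a| * D := mul_le_mul_of_nonneg_right ha hD0.le
      have h8 : |yg - yu - lam * (yv - yu)| ≤ 2 * D := by
        refine (abs_sub _ _).trans ?_
        rw [abs_mul]
        have h9 : |lam| * |yv - yu| ≤ 1 * D := mul_le_mul hlabs h1 (abs_nonneg _) zero_le_one
        linarith
      linarith

/-- number of naturals below `m` in a real interval -/
theorem card_interval (m : ℕ) (c L : ℝ) (hL : 0 ≤ L) :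
    ((Finset.univ.filter fun b : Fin m => c ≤ (b : ℝ) ∧ (b : ℝ) ≤ c + L).card : ℝ) ≤ L + 1 := by
  have h1 : (Finset.univ.filter fun b : Fin m => c ≤ (b : ℝ) ∧ (b : ℝ) ≤ c + L).card ≤
      (Finset.Icc ⌈c⌉ ⌊c + L⌋).card := by
    refine Finset.card_le_card_of_injOn (fun b => ((b : ℕ) : ℤ)) ?_ ?_
    · intro b hb
      simp only [Finset.coe_filter, Finset.mem_univ, true_and, Set.mem_ofPred_eq] at hb
      simp only [Finset.coe_Icc, Set.mem_Icc]
      exact ⟨Int.ceil_le.mpr (by exact_mod_cast hb.1), Int.le_floor.mpr (by exact_mod_cast hb.2)⟩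
    · intro b _ b' _ h
      apply Fin.ext
      simpa using h
  have h2 : ((Finset.Icc ⌈c⌉ ⌊c + L⌋).card : ℝ) ≤ L + 1 := by
    rw [Int.card_Icc]
    rcases le_or_gt (⌊c + L⌋ + 1 - ⌈c⌉) 0 with h | h
    · rw [Int.toNat_of_nonpos h]
      simp only [Nat.cast_zero]
      linarith
    · have h3 : (((⌊c + L⌋ + 1 - ⌈c⌉).toNat : ℕ) : ℝ) = ((⌊c + L⌋ + 1 - ⌈c⌉ : ℤ) : ℝ) := by
        have := Int.toNat_of_nonneg h.le
        exact_mod_cast this
      rw [h3]
      push_cast
      have h4 := Int.floor_le (c + L)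
      have h5 := Int.le_ceil c
      linarith
  exact (by exact_mod_cast h1 : ((Finset.univ.filter fun b : Fin m => c ≤ (b : ℝ) ∧
    (b : ℝ) ≤ c + L).card : ℝ) ≤ (Finset.Icc ⌈c⌉ ⌊c + L⌋).card).trans h2

/-- number of grid points near a graph -/
theorem card_graph (m : ℕ) (hm : 0 < m) (φ : Fin m → ℝ) (ρ : ℝ) (hρ : 0 ≤ ρ) :
    ((Finset.univ.filter fun g : Fin m × Fin m => |(g.2 : ℝ) / m - φ g.1| ≤ ρ).card : ℝ) ≤
      m * (2 * ρ * m + 1) := by
  have hm' : (0 : ℝ) < m := by exact_mod_cast hm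
  have h1 : (Finset.univ.filter fun g : Fin m × Fin m => |(g.2 : ℝ) / m - φ g.1| ≤ ρ).card =
      ∑ a : Fin m, (Finset.univ.filter fun b : Fin m => |(b : ℝ) / m - φ a| ≤ ρ).card := by
    rw [← Finset.card_sigma]
    refine Finset.card_bij (fun g _ => ⟨g.1, g.2⟩) ?_ ?_ ?_
    · intro g hg
      simpa using hg
    · rintro ⟨a, b⟩ _ ⟨a', b'⟩ _ h
      simp only [Sigma.mk.injEq, heq_eq_eq] at h
      exact Prod.ext h.1 h.2
    · rintro ⟨a, b⟩ hb
      refine ⟨(a, b), ?_, rfl⟩
      simpa using hb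
  rw [h1]
  push_cast
  have h2 : ∀ a ∈ (Finset.univ : Finset (Fin m)),
      ((Finset.univ.filter fun b : Fin m => |(b : ℝ) / m - φ a| ≤ ρ).card : ℝ) ≤ 2 * ρ * m + 1 := by
    intro a _
    have h3 := card_interval m (m * φ a - ρ * m) (2 * ρ * m) (by positivity)
    refine le_trans ?_ h3
    have h4 : (Finset.univ.filter fun b : Fin m => |(b : ℝ) / m - φ a| ≤ ρ) ⊆
        (Finset.univ.filter fun b : Fin m => m * φ a - ρ * m ≤ (b : ℝ) ∧
          (b : ℝ) ≤ m * φ a - ρ * m + 2 * ρ * m) := by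
      intro b hb
      simp only [Finset.mem_filter, Finset.mem_univ, true_and] at hb ⊢
      rw [abs_le] at hb
      have h5 : (b : ℝ) / m * m = b := by field_simp
      constructor
      · nlinarith [hb.1, hb.2]
      · nlinarith [hb.1, hb.2]
    exact_mod_cast Finset.card_le_card h4
  refine (Finset.sum_le_card_nsmul _ _ _ h2).trans ?_
  rw [Finset.card_univ, Fintype.card_fin, nsmul_eq_mul]


section Count
open Finset

theorem count_tuple {N : ℕ} {G : Type} [Fintype G] [DecidableEq G] [Nonempty G] (i j : Fin N)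
    (hij : j ≠ i) (L : Finset (Fin N)) (hi : i ∉ L) (hj : j ∉ L) (S : G → G → Finset G) (K : ℝ)
    (hK : ∀ u v, ((S u v).card : ℝ) ≤ K) :
    ((univ.filter fun f : Fin N → G => ∀ l ∈ L, f l ∈ S (f i) (f j)).card : ℝ) ≤
      (K / Fintype.card G) ^ L.card * (Fintype.card G : ℝ) ^ N := by
  classical
  have hg : (0 : ℝ) < Fintype.card G := by exact_mod_cast Fintype.card_pos
  obtain ⟨g, hgg⟩ : ∃ g : ℝ, g = Fintype.card G := ⟨_, rfl⟩
  rw [← hgg] at hg ⊢
  have hK0 : 0 ≤ K := by
    have u := Classical.arbitrary G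
    exact (Nat.cast_nonneg _).trans (hK u u)
  let A : G × G → Fin N → Finset G := fun uv l =>
    if l = i then {uv.1} else if l = j then {uv.2} else if l ∈ L then S uv.1 uv.2 else univ
  have hsub : (univ.filter fun f : Fin N → G => ∀ l ∈ L, f l ∈ S (f i) (f j)) ⊆
      (univ : Finset (G × G)).biUnion fun uv => Fintype.piFinset (A uv) := by
    intro f hf
    simp only [mem_filter, mem_univ, true_and] at hf
    simp only [mem_biUnion, mem_univ, true_and, Fintype.mem_piFinset]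
    refine ⟨(f i, f j), fun l => ?_⟩
    simp only [A]
    split_ifs with h1 h2 h3
    · simp [h1]
    · simp [h2]
    · exact hf l h3
    · exact mem_univ _
  have h1 := (card_le_card hsub).trans card_biUnion_le
  have h2 : ((univ.filter fun f : Fin N → G => ∀ l ∈ L, f l ∈ S (f i) (f j)).card : ℝ) ≤
      ∑ uv : G × G, ((Fintype.piFinset (A uv)).card : ℝ) := by exact_mod_cast h1
  refine h2.trans ?_
  have h3 : ∀ uv ∈ (univ : Finset (G × G)), ((Fintype.piFinset (A uv)).card : ℝ) ≤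
      (1 / g) * (1 / g) * (K / g) ^ L.card * g ^ N := by
    intro uv _
    rw [Fintype.card_piFinset]
    push_cast
    have h4 : ∏ l : Fin N, ((A uv l).card : ℝ) ≤ ∏ l : Fin N,
        ((if l = i then 1 / g else 1) * (if l = j then 1 / g else 1) *
          (if l ∈ L then K / g else 1) * g) := by
      refine prod_le_prod (fun l _ => Nat.cast_nonneg _) fun l _ => ?_
      simp only [A]
      by_cases c1 : l = i
      · rw [if_pos c1, if_pos c1, if_neg (c1 ▸ hij.symm), if_neg (c1 ▸ hi)]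
        rw [card_singleton]
        field_simp
        simp
      · by_cases c2 : l = j
        · rw [if_neg c1, if_pos c2, if_neg c1, if_pos c2, if_neg (c2 ▸ hj)]
          rw [card_singleton]
          field_simp
          simp
        · by_cases c3 : l ∈ L
          · rw [if_neg c1, if_neg c2, if_pos c3, if_neg c1, if_neg c2, if_pos c3]
            have : 1 * 1 * (K / g) * g = K := by field_simp
            rw [this]
            exact hK _ _
          · rw [if_neg c1, if_neg c2, if_neg c3, if_neg c1, if_neg c2, if_neg c3, card_univ, hgg]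
            simp
    refine h4.trans (le_of_eq ?_)
    rw [prod_mul_distrib, prod_mul_distrib, prod_mul_distrib, prod_ite_eq', prod_ite_eq',
      prod_ite_mem, univ_inter, prod_const, prod_const, card_univ, Fintype.card_fin]
    simp
  refine (sum_le_card_nsmul _ _ _ h3).trans (le_of_eq ?_)
  rw [card_univ, Fintype.card_prod, nsmul_eq_mul]
  push_cast
  rw [← hgg]
  field_simp

theorem count_eq {N : ℕ} {G : Type} [Fintype G] [DecidableEq G] [Nonempty G] (i j : Fin N)
    (hij : j ≠ i) :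
    ((univ.filter fun f : Fin N → G => f j = f i).card : ℝ) ≤
      1 / (Fintype.card G) * (Fintype.card G : ℝ) ^ N := by
  classical
  have hg : (0 : ℝ) < Fintype.card G := by exact_mod_cast Fintype.card_pos
  obtain ⟨g, hgg⟩ : ∃ g : ℝ, g = Fintype.card G := ⟨_, rfl⟩
  rw [← hgg] at hg ⊢
  let A : G → Fin N → Finset G := fun u l =>
    if l = i then {u} else if l = j then {u} else univ
  have hsub : (univ.filter fun f : Fin N → G => f j = f i) ⊆
      (univ : Finset G).biUnion fun u => Fintype.piFinset (A u) := by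
    intro f hf
    simp only [mem_filter, mem_univ, true_and] at hf
    simp only [mem_biUnion, mem_univ, true_and, Fintype.mem_piFinset]
    refine ⟨f i, fun l => ?_⟩
    simp only [A]
    split_ifs with h1 h2
    · simp [h1]
    · simp [h2, hf]
    · exact mem_univ _
  have h1 := (card_le_card hsub).trans card_biUnion_le
  have h2 : ((univ.filter fun f : Fin N → G => f j = f i).card : ℝ) ≤
      ∑ u : G, ((Fintype.piFinset (A u)).card : ℝ) := by exact_mod_cast h1
  refine h2.trans ?_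
  have h3 : ∀ u ∈ (univ : Finset G), ((Fintype.piFinset (A u)).card : ℝ) ≤
      (1 / g) * (1 / g) * g ^ N := by
    intro u _
    rw [Fintype.card_piFinset]
    push_cast
    have h4 : ∏ l : Fin N, ((A u l).card : ℝ) ≤ ∏ l : Fin N,
        ((if l = i then 1 / g else 1) * (if l = j then 1 / g else 1) * g) := by
      refine prod_le_prod (fun l _ => Nat.cast_nonneg _) fun l _ => ?_
      simp only [A]
      by_cases c1 : l = i
      · rw [if_pos c1, if_pos c1, if_neg (c1 ▸ hij.symm)]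
        rw [card_singleton]
        field_simp
        simp
      · by_cases c2 : l = j
        · rw [if_neg c1, if_pos c2, if_neg c1, if_pos c2]
          rw [card_singleton]
          field_simp
          simp
        · rw [if_neg c1, if_neg c2, if_neg c1, if_neg c2, card_univ, hgg]
          simp
    refine h4.trans (le_of_eq ?_)
    rw [prod_mul_distrib, prod_mul_distrib, prod_ite_eq', prod_ite_eq',
      prod_const, card_univ, Fintype.card_fin]
    simp
  refine (sum_le_card_nsmul _ _ _ h3).trans (le_of_eq ?_)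
  rw [card_univ, nsmul_eq_mul, ← hgg]
  field_simp

theorem exists_good (N k : ℕ) {G : Type} [Fintype G] [DecidableEq G]
    [Nonempty G] (S : Bool → G → G → Finset G) (K : ℝ)
    (hK : ∀ ax u v, ((S ax u v).card : ℝ) ≤ K) (h1 : 4 * (N : ℝ) ≤ Fintype.card G)
    (h2 : 8 * (N : ℝ) ^ (k + 1) * (K / Fintype.card G) ^ k ≤ 1) :
    ∃ (f : Fin N → G) (R : Finset (Fin N)), 2 * R.card ≤ N ∧ ∀ i ∉ R,
      (∀ j, j ≠ i → f j ≠ f i) ∧ ∀ j, j ≠ i → ∀ ax, ∀ L : Finset (Fin N), i ∉ L → j ∉ L →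
        L.card = k → ¬ ∀ l ∈ L, f l ∈ S ax (f i) (f j) := by
  classical
  have hg : (0 : ℝ) < Fintype.card G := by exact_mod_cast Fintype.card_pos
  have hK0 : 0 ≤ K := by
    have u := Classical.arbitrary G
    exact (Nat.cast_nonneg _).trans (hK true u u)
  let Bad : (Fin N → G) → Fin N → Prop := fun f i => (∃ j, j ≠ i ∧ f j = f i) ∨
    ∃ j ax, ∃ L : Finset (Fin N), j ≠ i ∧ i ∉ L ∧ j ∉ L ∧ L.card = k ∧
      ∀ l ∈ L, f l ∈ S ax (f i) (f j)
  -- the number of bad maps at i
  have hA : ∀ i, ((univ.filter fun f : Fin N → G => Bad f i).card : ℝ) ≤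
      1 / 2 * (Fintype.card G : ℝ) ^ N := by
    intro i
    have hsub : (univ.filter fun f : Fin N → G => Bad f i) ⊆
        ((univ : Finset (Fin N)).biUnion fun j =>
          univ.filter fun f : Fin N → G => j ≠ i ∧ f j = f i) ∪
        (((univ : Finset (Fin N)) ×ˢ ((univ : Finset Bool) ×ˢ
          powersetCard k (univ : Finset (Fin N)))).biUnion fun e =>
          univ.filter fun f : Fin N → G => e.1 ≠ i ∧ i ∉ e.2.2 ∧ e.1 ∉ e.2.2 ∧
            ∀ l ∈ e.2.2, f l ∈ S e.2.1 (f i) (f e.1)) := by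
      intro f hf
      simp only [mem_filter, mem_univ, true_and, Bad] at hf
      rw [mem_union]
      rcases hf with ⟨j, hj, hfj⟩ | ⟨j, ax, L, hj, hi, hjL, hL, hf⟩
      · left
        simp only [mem_biUnion, mem_univ, true_and, mem_filter]
        exact ⟨j, hj, hfj⟩
      · right
        simp only [mem_biUnion, mem_product, mem_univ, true_and, mem_filter, mem_powersetCard,
          subset_univ]
        exact ⟨(j, ax, L), hL, hj, hi, hjL, hf⟩
    have c1 : ((univ.filter fun f : Fin N → G => Bad f i).card : ℝ) ≤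
        ∑ j : Fin N, ((univ.filter fun f : Fin N → G => j ≠ i ∧ f j = f i).card : ℝ) +
        ∑ e ∈ ((univ : Finset (Fin N)) ×ˢ ((univ : Finset Bool) ×ˢ
          powersetCard k (univ : Finset (Fin N)))),
          ((univ.filter fun f : Fin N → G => e.1 ≠ i ∧ i ∉ e.2.2 ∧ e.1 ∉ e.2.2 ∧
            ∀ l ∈ e.2.2, f l ∈ S e.2.1 (f i) (f e.1)).card : ℝ) := by
      have := ((card_le_card hsub).trans (card_union_le _ _)).trans
        (add_le_add card_biUnion_le card_biUnion_le)
      exact_mod_cast this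
    refine c1.trans ?_
    have c2 : ∀ j ∈ (univ : Finset (Fin N)),
        ((univ.filter fun f : Fin N → G => j ≠ i ∧ f j = f i).card : ℝ) ≤
          1 / (Fintype.card G) * (Fintype.card G : ℝ) ^ N := by
      intro j _
      by_cases hj : j ≠ i
      · refine le_trans ?_ (count_eq i j hj)
        exact_mod_cast card_le_card (fun f hf => by
          simp only [mem_filter, mem_univ, true_and] at hf ⊢
          exact hf.2)
      · rw [filter_false_of_mem (fun f _ hf => hj hf.1)]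
        simp only [card_empty, Nat.cast_zero]
        positivity
    have c3 : ∀ e ∈ ((univ : Finset (Fin N)) ×ˢ ((univ : Finset Bool) ×ˢ
          powersetCard k (univ : Finset (Fin N)))),
          ((univ.filter fun f : Fin N → G => e.1 ≠ i ∧ i ∉ e.2.2 ∧ e.1 ∉ e.2.2 ∧
            ∀ l ∈ e.2.2, f l ∈ S e.2.1 (f i) (f e.1)).card : ℝ) ≤
          (K / Fintype.card G) ^ k * (Fintype.card G : ℝ) ^ N := by
      rintro ⟨j, ax, L⟩ he
      simp only [mem_product, mem_univ, true_and, mem_powersetCard, subset_univ] at he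
      by_cases hc : j ≠ i ∧ i ∉ L ∧ j ∉ L
      · have := count_tuple i j hc.1 L hc.2.1 hc.2.2 (S ax) K (hK ax)
        rw [he] at this
        refine le_trans ?_ this
        exact_mod_cast card_le_card (fun f hf => by
          simp only [mem_filter, mem_univ, true_and] at hf ⊢
          exact hf.2.2.2)
      · rw [filter_false_of_mem (fun f _ hf => hc ⟨hf.1, hf.2.1, hf.2.2.1⟩)]
        simp only [card_empty, Nat.cast_zero]
        positivity
    refine (add_le_add (sum_le_card_nsmul _ _ _ c2) (sum_le_card_nsmul _ _ _ c3)).trans ?_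
    rw [card_product, card_product, card_powersetCard, card_univ, card_univ, Fintype.card_fin,
      Fintype.card_bool, nsmul_eq_mul, nsmul_eq_mul]
    push_cast
    have hch : ((N.choose k : ℕ) : ℝ) ≤ (N : ℝ) ^ k := by exact_mod_cast Nat.choose_le_pow N k
    have hq : 0 ≤ (K / Fintype.card G) ^ k := by positivity
    have hgN : (0 : ℝ) < (Fintype.card G : ℝ) ^ N := by positivity
    have e1 : (N : ℝ) * (1 / (Fintype.card G)) ≤ 1 / 4 := by
      rw [mul_one_div, div_le_div_iff₀ hg (by norm_num)]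
      linarith
    have e2 : (N : ℝ) * (2 * (N.choose k : ℝ)) * (K / Fintype.card G) ^ k ≤ 1 / 4 := by
      have : (N : ℝ) * (2 * (N.choose k : ℝ)) * (K / Fintype.card G) ^ k ≤
          (N : ℝ) * (2 * (N : ℝ) ^ k) * (K / Fintype.card G) ^ k := by gcongr
      refine this.trans ?_
      have e3 : (N : ℝ) * (2 * (N : ℝ) ^ k) * (K / Fintype.card G) ^ k =
        1 / 4 * (8 * (N : ℝ) ^ (k + 1) * (K / Fintype.card G) ^ k) := by ring
      rw [e3]
      linarith
    calc (N : ℝ) * (1 / (Fintype.card G) * (Fintype.card G : ℝ) ^ N) +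
        (N : ℝ) * (2 * (N.choose k : ℝ)) * ((K / Fintype.card G) ^ k * (Fintype.card G : ℝ) ^ N)
        = ((N : ℝ) * (1 / (Fintype.card G)) + (N : ℝ) * (2 * (N.choose k : ℝ)) *
          (K / Fintype.card G) ^ k) * (Fintype.card G : ℝ) ^ N := by ring
      _ ≤ (1 / 4 + 1 / 4) * (Fintype.card G : ℝ) ^ N := by gcongr
      _ = 1 / 2 * (Fintype.card G : ℝ) ^ N := by ring
  -- double counting
  have hB : ∑ f : Fin N → G, ((univ.filter fun i => Bad f i).card : ℝ) ≤
      ∑ _f : Fin N → G, ((N : ℝ) / 2) := by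
    have e1 : ∑ f : Fin N → G, ((univ.filter fun i => Bad f i).card : ℝ) =
        ∑ i : Fin N, ((univ.filter fun f : Fin N → G => Bad f i).card : ℝ) := by
      simp only [card_filter]
      push_cast
      exact sum_comm
    rw [e1]
    refine (sum_le_card_nsmul _ _ _ fun i _ => hA i).trans (le_of_eq ?_)
    rw [sum_const, card_univ, card_univ, Fintype.card_fin, Fintype.card_pi_const, nsmul_eq_mul,
      nsmul_eq_mul]
    push_cast
    ring
  obtain ⟨f, _, hf⟩ := exists_le_of_sum_le (univ_nonempty) hB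
  refine ⟨f, univ.filter fun i => Bad f i, ?_, ?_⟩
  · have : (2 : ℝ) * ((univ.filter fun i => Bad f i).card : ℝ) ≤ N := by linarith
    exact_mod_cast this
  · intro i hi
    simp only [mem_filter, mem_univ, true_and, Bad, not_or, not_exists] at hi
    refine ⟨fun j hj hfj => hi.1 j ⟨hj, hfj⟩, fun j hj ax L hiL hjL hL hall => ?_⟩
    exact hi.2 j ax L ⟨hj, hiL, hjL, hL, hall⟩


end Count

/-- The plane. -/
abbrev Plane := EuclideanSpace ℝ (Fin 2)

/-- The closed disks of radius `r` with the centres `p i` are `n` different disks in the closed unit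
disk, and every line `{q + t v}` meets at most `k` of them. -/
def IsConfiguration (k n : ℕ) (r : ℝ) (p : Fin n → Plane) : Prop :=
  Function.Injective p ∧ (∀ i, Metric.closedBall (p i) r ⊆ Metric.closedBall 0 1) ∧
    ∀ q v : Plane, v ≠ 0 → {i | ∃ t : ℝ, q + t • v ∈ Metric.closedBall (p i) r}.ncard ≤ k

/-- `r_k(n)`. -/
noncomputable def rk (k n : ℕ) : ℝ := sSup {r | 0 < r ∧ ∃ p, IsConfiguration k n r p}

theorem bdd (k n : ℕ) (hn : 1 ≤ n) : BddAbove {r | 0 < r ∧ ∃ p, IsConfiguration k n r p} := by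
  refine ⟨1, ?_⟩
  rintro r ⟨hr, p, hp⟩
  have h0 := hp.2.1 ⟨0, hn⟩
  obtain ⟨w, hw⟩ : ∃ w, w = p ⟨0, hn⟩ := ⟨_, rfl⟩
  rw [← hw] at h0
  obtain ⟨e, he⟩ : ∃ e : Plane, ‖e‖ = 1 := ⟨EuclideanSpace.single 0 1, by simp⟩
  have h1 : w + r • e ∈ Metric.closedBall (0 : Plane) 1 := h0 (by
    rw [Metric.mem_closedBall, dist_eq_norm, add_sub_cancel_left, norm_smul, he, mul_one,
      Real.norm_eq_abs, abs_of_pos hr])
  have h2 : w - r • e ∈ Metric.closedBall (0 : Plane) 1 := h0 (by
    rw [Metric.mem_closedBall, dist_eq_norm, sub_sub_cancel_left, norm_neg, norm_smul, he, mul_one,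
      Real.norm_eq_abs, abs_of_pos hr])
  rw [mem_closedBall_zero_iff] at h1 h2
  have h3 : ‖(w + r • e) - (w - r • e)‖ ≤ 2 := (norm_sub_le _ _).trans (by linarith)
  have h4 : (w + r • e) - (w - r • e) = (2 * r) • e := by
    rw [mul_smul, two_smul]
    abel
  rw [h4, norm_smul, he, mul_one, Real.norm_eq_abs, abs_of_pos (by linarith)] at h3
  linarith

theorem card_graph' (m : ℕ) (hm : 0 < m) (φ : Fin m → ℝ) (ρ : ℝ) (hρ : 0 ≤ ρ) :
    ((Finset.univ.filter fun g : Fin m × Fin m => |(g.1 : ℝ) / m - φ g.2| ≤ ρ).card : ℝ) ≤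
      m * (2 * ρ * m + 1) := by
  refine le_trans (le_of_eq ?_) (card_graph m hm φ ρ hρ)
  congr 1
  refine Finset.card_bij (fun g _ => (g.2, g.1)) ?_ ?_ ?_
  · intro g hg
    simpa using hg
  · rintro ⟨a, b⟩ _ ⟨a', b'⟩ _ h
    simp only [Prod.mk.injEq] at h
    exact Prod.ext h.2 h.1
  · rintro ⟨a, b⟩ hb
    refine ⟨(b, a), ?_, rfl⟩
    simpa using hb

/-- A line near a point gives a linear inequality. -/
theorem near_line (q v w : Plane) (hv : v ≠ 0) (t r : ℝ) (h : q + t • v ∈ Metric.closedBall w r) :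
    |-(v 1) / ‖v‖ * w 0 + v 0 / ‖v‖ * w 1 - (-(v 1) / ‖v‖ * q 0 + v 0 / ‖v‖ * q 1)| ≤ r := by
  have hn : 0 < ‖v‖ := norm_pos_iff.mpr hv
  have hr : 0 ≤ r := dist_nonneg.trans (Metric.mem_closedBall.mp h)
  have hv2 : ‖v‖ ^ 2 = v 0 ^ 2 + v 1 ^ 2 := by
    rw [EuclideanSpace.norm_sq_eq, Fin.sum_univ_two, Real.norm_eq_abs, Real.norm_eq_abs, sq_abs,
      sq_abs]
  have hd : (q 0 + t * v 0 - w 0) ^ 2 + (q 1 + t * v 1 - w 1) ^ 2 ≤ r ^ 2 := by
    have h1 : ‖q + t • v - w‖ ≤ r := by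
      rw [← dist_eq_norm]
      exact Metric.mem_closedBall.mp h
    have h2 : ‖q + t • v - w‖ ^ 2 ≤ r ^ 2 := pow_le_pow_left₀ (norm_nonneg _) h1 2
    rw [EuclideanSpace.norm_sq_eq, Fin.sum_univ_two, Real.norm_eq_abs, Real.norm_eq_abs, sq_abs,
      sq_abs] at h2
    simpa using h2
  have h3 : -(v 1) / ‖v‖ * w 0 + v 0 / ‖v‖ * w 1 - (-(v 1) / ‖v‖ * q 0 + v 0 / ‖v‖ * q 1) =
      (v 1 * (q 0 + t * v 0 - w 0) - v 0 * (q 1 + t * v 1 - w 1)) / ‖v‖ := by
    field_simp
    ring
  rw [h3, abs_div, abs_of_pos hn, div_le_iff₀ hn]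
  apply abs_le_of_sq_le_sq _ (by positivity)
  rw [mul_pow, hv2]
  obtain ⟨s, hs⟩ : ∃ s, s = q 0 + t * v 0 - w 0 := ⟨_, rfl⟩
  obtain ⟨s', hs'⟩ : ∃ s', s' = q 1 + t * v 1 - w 1 := ⟨_, rfl⟩
  rw [← hs, ← hs'] at hd ⊢
  have h4 : (v 1 * s - v 0 * s') ^ 2 ≤ (v 0 ^ 2 + v 1 ^ 2) * (s ^ 2 + s' ^ 2) := by
    nlinarith [sq_nonneg (v 0 * s + v 1 * s')]
  have h5 : (v 0 ^ 2 + v 1 ^ 2) * (s ^ 2 + s' ^ 2) ≤ (v 0 ^ 2 + v 1 ^ 2) * r ^ 2 :=
    mul_le_mul_of_nonneg_left hd (by positivity)
  linarith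

theorem exists_configuration (k n : ℕ) (hk : 1 ≤ k) (hn : 1 ≤ n) (r : ℝ) (hr : 0 < r)
    (hr1 : r ≤ 1 / 23) (h : 8 * (2 * (n : ℝ)) ^ (k + 1) * (23 * r) ^ k ≤ 1) :
    ∃ p, IsConfiguration (k + 1) n r p := by
  classical
  obtain ⟨m, hm⟩ : ∃ m : ℕ, m = ⌈1 / r⌉₊ + 4 * (2 * n) := ⟨_, rfl⟩
  have hm0 : 0 < m := by omega
  have hm0' : (0 : ℝ) < m := by exact_mod_cast hm0
  have hmr : 1 / r ≤ m := by
    rw [hm]
    push_cast
    have := Nat.le_ceil (1 / r)
    have h0 : (0 : ℝ) ≤ n := Nat.cast_nonneg n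
    linarith
  have hmn : 4 * (2 * (n : ℝ)) ≤ m := by
    rw [hm]
    push_cast
    have : (0 : ℝ) ≤ (⌈1 / r⌉₊ : ℝ) := Nat.cast_nonneg _
    linarith
  have : Nonempty (Fin m × Fin m) := ⟨(⟨0, hm0⟩, ⟨0, hm0⟩)⟩
  let X : Fin m × Fin m → ℝ := fun g => (g.1 : ℝ) / m - 1 / 2
  let Y : Fin m × Fin m → ℝ := fun g => (g.2 : ℝ) / m - 1 / 2
  let S : Bool → Fin m × Fin m → Fin m × Fin m → Finset (Fin m × Fin m) := fun ax u v =>
    if ax then Finset.univ.filter fun g =>
      |Y g - Y u - (X g - X u) / (X v - X u) * (Y v - Y u)| ≤ 11 * r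
    else Finset.univ.filter fun g =>
      |X g - X u - (Y g - Y u) / (Y v - Y u) * (X v - X u)| ≤ 11 * r
  have hK : ∀ ax u v, ((S ax u v).card : ℝ) ≤ m * (2 * (11 * r) * m + 1) := by
    intro ax u v
    cases ax
    · have := card_graph' m hm0 (fun b => (u.1 : ℝ) / m +
        ((b : ℝ) / m - 1 / 2 - Y u) / (Y v - Y u) * (X v - X u)) (11 * r) (by positivity)
      refine le_trans (le_of_eq ?_) this
      congr 2
      ext g
      simp only [S, Finset.mem_filter, Finset.mem_univ, true_and, X, Y, Bool.false_eq_true,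
        if_false]
      have e : (g.1 : ℝ) / m - 1 / 2 - ((u.1 : ℝ) / m - 1 / 2) -
          ((g.2 : ℝ) / m - 1 / 2 - ((u.2 : ℝ) / m - 1 / 2)) /
            ((v.2 : ℝ) / m - 1 / 2 - ((u.2 : ℝ) / m - 1 / 2)) *
            ((v.1 : ℝ) / m - 1 / 2 - ((u.1 : ℝ) / m - 1 / 2)) =
          (g.1 : ℝ) / m - ((u.1 : ℝ) / m + ((g.2 : ℝ) / m - 1 / 2 - ((u.2 : ℝ) / m - 1 / 2)) /
            ((v.2 : ℝ) / m - 1 / 2 - ((u.2 : ℝ) / m - 1 / 2)) *
            ((v.1 : ℝ) / m - 1 / 2 - ((u.1 : ℝ) / m - 1 / 2))) := by ring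
      rw [e]
    · have := card_graph m hm0 (fun b => (u.2 : ℝ) / m +
        ((b : ℝ) / m - 1 / 2 - X u) / (X v - X u) * (Y v - Y u)) (11 * r) (by positivity)
      refine le_trans (le_of_eq ?_) this
      congr 2
      ext g
      simp only [S, Finset.mem_filter, Finset.mem_univ, true_and, X, Y, if_true]
      have e : (g.2 : ℝ) / m - 1 / 2 - ((u.2 : ℝ) / m - 1 / 2) -
          ((g.1 : ℝ) / m - 1 / 2 - ((u.1 : ℝ) / m - 1 / 2)) /
            ((v.1 : ℝ) / m - 1 / 2 - ((u.1 : ℝ) / m - 1 / 2)) *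
            ((v.2 : ℝ) / m - 1 / 2 - ((u.2 : ℝ) / m - 1 / 2)) =
          (g.2 : ℝ) / m - ((u.2 : ℝ) / m + ((g.1 : ℝ) / m - 1 / 2 - ((u.1 : ℝ) / m - 1 / 2)) /
            ((v.1 : ℝ) / m - 1 / 2 - ((u.1 : ℝ) / m - 1 / 2)) *
            ((v.2 : ℝ) / m - 1 / 2 - ((u.2 : ℝ) / m - 1 / 2))) := by ring
      rw [e]
  have hcard : (Fintype.card (Fin m × Fin m) : ℝ) = m * m := by
    rw [Fintype.card_prod, Fintype.card_fin]
    push_cast
    ring
  have hq : m * (2 * (11 * r) * m + 1) / (Fintype.card (Fin m × Fin m) : ℝ) ≤ 23 * r := by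
    rw [hcard, div_le_iff₀ (by positivity)]
    have h1 : 1 ≤ r * m := by
      rw [div_le_iff₀ hr] at hmr
      linarith
    nlinarith
  obtain ⟨f, R, hR, hf⟩ := exists_good (2 * n) k S (m * (2 * (11 * r) * m + 1)) hK (by
    rw [hcard]
    push_cast
    have h1 : (1 : ℝ) ≤ m := by exact_mod_cast hm0
    nlinarith) (by
    push_cast
    refine le_trans ?_ h
    gcongr)
  have hRc : n ≤ (Rᶜ).card := by
    rw [Finset.card_compl, Fintype.card_fin]
    omega
  let e := Rᶜ.orderEmbOfCardLe hRc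
  have heR : ∀ l, e l ∉ R := fun l => by
    have := Rᶜ.orderEmbOfCardLe_mem hRc l
    rwa [Finset.mem_compl] at this
  let P : Fin m × Fin m → Plane := fun g => !₂[X g, Y g]
  have hP0 : ∀ g, P g 0 = X g := fun g => by simp [P]
  have hP1 : ∀ g, P g 1 = Y g := fun g => by simp [P]
  have hPinj : Function.Injective P := by
    intro g g' hgg
    have h0 : X g = X g' := by rw [← hP0, ← hP0, hgg]
    have h1 : Y g = Y g' := by rw [← hP1, ← hP1, hgg]
    simp only [X, Y, sub_left_inj] at h0 h1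
    rw [div_left_inj' hm0'.ne'] at h0 h1
    exact Prod.ext (Fin.ext (by exact_mod_cast h0)) (Fin.ext (by exact_mod_cast h1))
  refine ⟨fun l => P (f (e l)), ?_, ?_, ?_⟩
  · intro l l' hll
    by_contra hne
    have h1 := hPinj hll
    exact (hf (e l') (heR l')).1 (e l) (fun h2 => hne (e.injective h2)) h1
  · intro l
    apply Metric.closedBall_subset_closedBall'
    rw [dist_zero_right]
    have h1 : ‖P (f (e l))‖ ^ 2 ≤ 1 / 2 := by
      rw [EuclideanSpace.norm_sq_eq, Fin.sum_univ_two, Real.norm_eq_abs, Real.norm_eq_abs, sq_abs,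
        sq_abs, hP0, hP1]
      have hb : ∀ a : Fin m, ((a : ℝ) / m - 1 / 2) ^ 2 ≤ 1 / 4 := by
        intro a
        have h2 : 0 ≤ (a : ℝ) / m := by positivity
        have h3 : (a : ℝ) / m ≤ 1 := by
          rw [div_le_one hm0']
          exact_mod_cast a.2.le
        nlinarith
      have h4 := hb (f (e l)).1
      have h5 := hb (f (e l)).2
      simp only [X, Y]
      linarith
    have h2 : ‖P (f (e l))‖ ≤ 3 / 4 := by
      nlinarith [norm_nonneg (P (f (e l)))]
    linarith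
  · intro q v hv
    by_contra hcon
    push Not at hcon
    obtain ⟨a, ha⟩ : ∃ a, a = -(v 1) / ‖v‖ := ⟨_, rfl⟩
    obtain ⟨b, hb⟩ : ∃ b, b = v 0 / ‖v‖ := ⟨_, rfl⟩
    obtain ⟨c, hc⟩ : ∃ c, c = a * q 0 + b * q 1 := ⟨_, rfl⟩
    have hn0 : 0 < ‖v‖ := norm_pos_iff.mpr hv
    have hab : a ^ 2 + b ^ 2 = 1 := by
      have hv2 : ‖v‖ ^ 2 = v 0 ^ 2 + v 1 ^ 2 := by
        rw [EuclideanSpace.norm_sq_eq, Fin.sum_univ_two, Real.norm_eq_abs, Real.norm_eq_abs,
          sq_abs, sq_abs]
      rw [ha, hb, div_pow, div_pow, ← add_div, div_eq_one_iff_eq (by positivity), hv2]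
      ring
    have hT : (Set.toFinite {i | ∃ t : ℝ, q + t • v ∈
        Metric.closedBall (P (f (e i))) r}).toFinset.card =
        {i | ∃ t : ℝ, q + t • v ∈ Metric.closedBall (P (f (e i))) r}.ncard :=
      (Set.ncard_eq_toFinset_card _ _).symm
    obtain ⟨I0, hI0, hI0c⟩ := Finset.exists_subset_card_eq
      (show k + 2 ≤ (Set.toFinite {i | ∃ t : ℝ, q + t • v ∈
        Metric.closedBall (P (f (e i))) r}).toFinset.card by rw [hT]; omega)
    obtain ⟨I, hI⟩ : ∃ I, I = I0.map e.toEmbedding := ⟨_, rfl⟩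
    have hIc : I.card = k + 2 := by rw [hI, Finset.card_map, hI0c]
    have hIR : ∀ i ∈ I, i ∉ R := by
      intro i hi
      rw [hI, Finset.mem_map] at hi
      obtain ⟨l, _, rfl⟩ := hi
      exact heR l
    have hIn : ∀ i ∈ I, |a * X (f i) + b * Y (f i) - c| ≤ r := by
      intro i hi
      rw [hI, Finset.mem_map] at hi
      obtain ⟨l, hl, rfl⟩ := hi
      have h1 := hI0 hl
      rw [Set.Finite.mem_toFinset] at h1
      obtain ⟨t, ht⟩ := h1
      have h2 := near_line q v _ hv t r ht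
      rw [hP0, hP1, ← ha, ← hb, ← hc] at h2
      exact h2
    have hne : I.offDiag.Nonempty := by
      obtain ⟨i, hi, j, hj, hij⟩ := Finset.one_lt_card.mp (show 1 < I.card by omega)
      exact ⟨(i, j), Finset.mem_offDiag.mpr ⟨hi, hj, hij⟩⟩
    obtain ⟨⟨i, j⟩, hij, hmax⟩ := Finset.exists_max_image I.offDiag
      (fun ij => max |X (f ij.2) - X (f ij.1)| |Y (f ij.2) - Y (f ij.1)|) hne
    rw [Finset.mem_offDiag] at hij
    obtain ⟨hiI, hjI, hijne⟩ := hij
    simp only at hiI hjI hijne hmax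
    obtain ⟨D, hD⟩ : ∃ D, D = max |X (f j) - X (f i)| |Y (f j) - Y (f i)| := ⟨_, rfl⟩
    rw [← hD] at hmax
    have hD0 : 0 ≤ D := by
      rw [hD]
      exact (abs_nonneg _).trans (le_max_left _ _)
    have hall : ∀ l ∈ I, |X (f l) - X (f i)| ≤ D ∧ |Y (f l) - Y (f i)| ≤ D := by
      intro l hl
      by_cases hli : l = i
      · rw [hli, sub_self, sub_self, abs_zero]
        exact ⟨hD0, hD0⟩
      · have h1 := hmax (i, l) (Finset.mem_offDiag.mpr ⟨hiI, hl, fun h2 => hli h2.symm⟩)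
        simp only at h1
        exact ⟨(le_max_left _ _).trans h1, (le_max_right _ _).trans h1⟩
    have hLc : ((I.erase i).erase j).card = k := by
      rw [Finset.card_erase_of_mem, Finset.card_erase_of_mem hiI, hIc]
      · omega
      · exact Finset.mem_erase.mpr ⟨fun h1 => hijne h1.symm, hjI⟩
    have hLi : i ∉ (I.erase i).erase j := by
      intro h1
      exact Finset.notMem_erase i I (Finset.mem_of_mem_erase h1)
    have hLj : j ∉ (I.erase i).erase j := Finset.notMem_erase j _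
    have hLI : ∀ l ∈ (I.erase i).erase j, l ∈ I := fun l hl =>
      Finset.mem_of_mem_erase (Finset.mem_of_mem_erase hl)
    have hprop := (hf i (hIR i hiI)).2 j (fun h1 => hijne h1.symm)
    rcases max_choice |X (f j) - X (f i)| |Y (f j) - Y (f i)| with hch | hch
    · rw [hch] at hD
      refine hprop true _ hLi hLj hLc fun l hl => ?_
      simp only [S, if_true, Finset.mem_filter, Finset.mem_univ, true_and]
      exact dev_le hab (hIn i hiI) (hIn j hjI) (hIn l (hLI l hl)) hD.symm (hall j hjI).2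
        (hall l (hLI l hl)).1 (hall l (hLI l hl)).2
    · rw [hch] at hD
      refine hprop false _ hLi hLj hLc fun l hl => ?_
      simp only [S, Bool.false_eq_true, if_false, Finset.mem_filter, Finset.mem_univ, true_and]
      have hsw : ∀ l ∈ I, |b * Y (f l) + a * X (f l) - c| ≤ r := by
        intro l hl
        have := hIn l hl
        rwa [add_comm (a * X (f l))] at this
      exact dev_le (by rw [add_comm]; exact hab) (hsw i hiI) (hsw j hjI) (hsw l (hLI l hl)) hD.symm
        (hall j hjI).1 (hall l (hLI l hl)).2 (hall l (hLI l hl)).1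

/-- For all `k ≥ 2` and `n ≥ 1`: `r_k(n) ≥ (1 / 23) (2 ^ (k + 3) n ^ k) ^ (- 1 / (k - 1))`. -/
theorem lower (k n : ℕ) (hk : 2 ≤ k) (hn : 1 ≤ n) :
    1 / 23 * ((2 : ℝ) ^ (k + 3) * (n : ℝ) ^ k) ^ (-(1 / ((k : ℝ) - 1))) ≤ rk k n := by
  obtain ⟨j, rfl⟩ : ∃ j, k = j + 1 := ⟨k - 1, by omega⟩
  have hj : 1 ≤ j := by omega
  have hj' : (0 : ℝ) < j := by exact_mod_cast hj
  have hn' : (1 : ℝ) ≤ n := by exact_mod_cast hn
  have hcast : ((j + 1 : ℕ) : ℝ) - 1 = j := by
    push_cast
    ring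
  rw [hcast]
  obtain ⟨A, hA⟩ : ∃ A, A = (2 : ℝ) ^ (j + 1 + 3) * (n : ℝ) ^ (j + 1) := ⟨_, rfl⟩
  rw [← hA]
  have hA1 : 1 ≤ A := by
    rw [hA]
    exact one_le_mul_of_one_le_of_one_le (one_le_pow₀ (by norm_num)) (one_le_pow₀ hn')
  have hA0 : 0 < A := by linarith
  have hpos : 0 < A ^ (-(1 / (j : ℝ))) := Real.rpow_pos_of_pos hA0 _
  have hle : A ^ (-(1 / (j : ℝ))) ≤ 1 := by
    apply Real.rpow_le_one_of_one_le_of_nonpos hA1
    have : 0 < 1 / (j : ℝ) := by positivity
    linarith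
  have hpow : (A ^ (-(1 / (j : ℝ)))) ^ j = A⁻¹ := by
    rw [← Real.rpow_natCast, ← Real.rpow_mul hA0.le]
    have : -(1 / (j : ℝ)) * (j : ℝ) = -1 := by field_simp
    rw [this, Real.rpow_neg_one]
  have hcfg := exists_configuration j n hj hn (1 / 23 * A ^ (-(1 / (j : ℝ)))) (by positivity)
    (by linarith) (by
      have h1 : 23 * (1 / 23 * A ^ (-(1 / (j : ℝ)))) = A ^ (-(1 / (j : ℝ))) := by ring
      rw [h1, hpow]
      have h2 : 8 * (2 * (n : ℝ)) ^ (j + 1) = A := by
        rw [hA, mul_pow]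
        ring
      rw [h2, mul_inv_cancel₀ hA0.ne'])
  exact le_csSup (bdd (j + 1) n hn) ⟨by positivity, hcfg⟩

/-- For all `k ≥ 2` and `n ≥ 1`: `r_k(n) ≥ n ^ (- k / (k - 1)) / 736`. -/
theorem result (k n : ℕ) (hk : 2 ≤ k) (hn : 1 ≤ n) :
    1 / 736 * (n : ℝ) ^ (-((k : ℝ) / ((k : ℝ) - 1))) ≤ rk k n := by
  refine le_trans ?_ (lower k n hk hn)
  have hk' : (2 : ℝ) ≤ k := by exact_mod_cast hk
  have hk1 : 0 < (k : ℝ) - 1 := by linarith
  have hn' : (1 : ℝ) ≤ n := by exact_mod_cast hn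
  have hn0 : (0 : ℝ) ≤ n := by linarith
  rw [Real.mul_rpow (by positivity) (by positivity)]
  have h1 : ((n : ℝ) ^ k) ^ (-(1 / ((k : ℝ) - 1))) = (n : ℝ) ^ (-((k : ℝ) / ((k : ℝ) - 1))) := by
    rw [← Real.rpow_natCast, ← Real.rpow_mul hn0]
    congr 1
    ring
  have h2 : 1 / 32 ≤ ((2 : ℝ) ^ (k + 3)) ^ (-(1 / ((k : ℝ) - 1))) := by
    rw [← Real.rpow_natCast, ← Real.rpow_mul (by norm_num)]
    have h3 : (1 : ℝ) / 32 = (2 : ℝ) ^ (-5 : ℝ) := by
      rw [Real.rpow_neg (by norm_num)]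
      norm_num
    rw [h3]
    apply Real.rpow_le_rpow_of_exponent_le (by norm_num)
    push_cast
    have h4 : ((k : ℝ) + 3) / ((k : ℝ) - 1) ≤ 5 := by
      rw [div_le_iff₀ hk1]
      linarith
    have h5 : ((k : ℝ) + 3) * -(1 / ((k : ℝ) - 1)) = -(((k : ℝ) + 3) / ((k : ℝ) - 1)) := by ring
    rw [h5]
    linarith
  rw [h1]
  have h6 : 0 ≤ (n : ℝ) ^ (-((k : ℝ) / ((k : ℝ) - 1))) := Real.rpow_nonneg hn0 _
  calc 1 / 736 * (n : ℝ) ^ (-((k : ℝ) / ((k : ℝ) - 1)))
      = 1 / 23 * (1 / 32 * (n : ℝ) ^ (-((k : ℝ) / ((k : ℝ) - 1)))) := by ring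
    _ ≤ 1 / 23 * (((2 : ℝ) ^ (k + 3)) ^ (-(1 / ((k : ℝ) - 1))) *
        (n : ℝ) ^ (-((k : ℝ) / ((k : ℝ) - 1)))) := by gcongr

end Pool.Agent.Results.MP_1780a9_co.LowerBound
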